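import Mathlib

/-!
The limiting generalized eigenvalue of the pair (Hadamard square of the fractional Brownian
covariance matrix, fractional Brownian covariance matrix) is positive for every Hurst parameter.
-/

set_option autoImplicit false

namespace Pool.Agent.Results.MP_271f9a_pr.KappaPositive

open MeasureTheory Set Filter Topology

/-- The covariance `R_H(s,t) = (|s|^(2H) + |t|^(2H) - |s-t|^(2H)) / 2` of fractional Brownian
motion with Hurst parameter `H`. -/
noncomputable def R (H s t : ℝ) : ℝ := (|s| ^ (2 * H) + |t| ^ (2 * H) - |s - t| ^ (2 * H)) / 2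

/-- The `N × N` matrix with entries `R_H(i,j)`, `1 ≤ i, j ≤ N`. -/
noncomputable def RM (H : ℝ) (N : ℕ) : Matrix (Fin N) (Fin N) ℝ :=
  Matrix.of fun i j => R H ((i : ℕ) + 1) ((j : ℕ) + 1)

/-- `a* M a` for a complex vector `a` and a real symmetric matrix `M` (a real number). -/
noncomputable def form {N : ℕ} (M : Matrix (Fin N) (Fin N) ℝ) (a : Fin N → ℂ) : ℝ :=
  (∑ i, ∑ j, (starRingEnd ℂ) (a i) * (M i j : ℂ) * a j).re

/-- `κ(γ,N)`: the smallest value of `(a* (R ∘ R) a) / (a* R a)`, `a ∈ ℂ^N`, `a ≠ 0`, where `R` is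
the matrix `RM (γ/2) N` and `R ∘ R` its entrywise square. -/
noncomputable def kappa (γ : ℝ) (N : ℕ) : ℝ :=
  sInf {r : ℝ | ∃ a : Fin N → ℂ, a ≠ 0 ∧
    r = form (Matrix.hadamard (RM (γ / 2) N) (RM (γ / 2) N)) a / form (RM (γ / 2) N) a}

/-! ### Real quadratic forms -/

/-- real quadratic form -/
noncomputable def qf {N : ℕ} (M : Fin N → Fin N → ℝ) (b : Fin N → ℝ) : ℝ :=
  ∑ i, ∑ j, b i * b j * M i j

theorem form_eq {N : ℕ} (M : Matrix (Fin N) (Fin N) ℝ) (a : Fin N → ℂ) :
    form M a = qf M (fun i => (a i).re) + qf M (fun i => (a i).im) := by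
  unfold form qf
  rw [Complex.re_sum, ← Finset.sum_add_distrib]
  refine Finset.sum_congr rfl fun i _ => ?_
  rw [Complex.re_sum, ← Finset.sum_add_distrib]
  refine Finset.sum_congr rfl fun j _ => ?_
  simp only [Complex.mul_re, Complex.mul_im, Complex.conj_re, Complex.conj_im,
    Complex.ofReal_re, Complex.ofReal_im]
  ring

/-! ### The integral representation -/

/-- the weight -/
noncomputable def w (H x : ℝ) : ℝ := x ^ (-1 - 2 * H)

theorem w_pos (H : ℝ) {x : ℝ} (hx : 0 < x) : 0 < w H x := Real.rpow_pos_of_pos hx _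

theorem two_sub_cos (y : ℝ) : 0 ≤ 2 - 2 * Real.cos y ∧ 2 - 2 * Real.cos y ≤ 4 ∧
    2 - 2 * Real.cos y ≤ y ^ 2 := by
  refine ⟨by linarith [Real.cos_le_one y], by linarith [Real.neg_one_le_cos y], ?_⟩
  have := Real.one_sub_sq_div_two_le_cos (x := y)
  linarith

theorem int_g {H : ℝ} (h0 : 0 < H) (h1 : H < 1) (s : ℝ) :
    IntegrableOn (fun x => (2 - 2 * Real.cos (s * x)) * w H x) (Ioi 0) := by
  have hm : Measurable (fun x => (2 - 2 * Real.cos (s * x)) * w H x) := by
    unfold w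
    fun_prop
  rw [← Ioc_union_Ioi_eq_Ioi (zero_le_one : (0:ℝ) ≤ 1)]
  refine IntegrableOn.union ?_ ?_
  · have h2 : IntegrableOn (fun x : ℝ => s ^ 2 * x ^ (1 - 2 * H)) (Ioc 0 1) := by
      refine Integrable.const_mul ?_ _
      have := (intervalIntegral.intervalIntegrable_rpow' (a := 0) (b := 1) (r := 1 - 2 * H)
        (by linarith))
      rwa [intervalIntegrable_iff_integrableOn_Ioc_of_le zero_le_one] at this
    refine h2.mono' hm.aestronglyMeasurable ?_
    refine (ae_restrict_iff' measurableSet_Ioc).2 (Eventually.of_forall fun x hx => ?_)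
    have hw := w_pos H hx.1
    obtain ⟨ha, -, hb⟩ := two_sub_cos (s * x)
    rw [Real.norm_eq_abs, abs_of_nonneg (mul_nonneg ha hw.le)]
    have e : x ^ (1 - 2 * H) = x ^ 2 * w H x := by
      unfold w
      rw [show (1 - 2 * H) = 2 + (-1 - 2 * H) by ring, Real.rpow_add hx.1]
      norm_num
    rw [e]
    calc (2 - 2 * Real.cos (s * x)) * w H x ≤ (s * x) ^ 2 * w H x :=
          mul_le_mul_of_nonneg_right hb hw.le
      _ = s ^ 2 * (x ^ 2 * w H x) := by ring
  · have h2 : IntegrableOn (fun x : ℝ => 4 * x ^ (-1 - 2 * H)) (Ioi 1) :=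
      (integrableOn_Ioi_rpow_of_lt (by linarith) one_pos).const_mul _
    refine h2.mono' hm.aestronglyMeasurable ?_
    refine (ae_restrict_iff' measurableSet_Ioi).2 (Eventually.of_forall fun x hx => ?_)
    have hx0 : (0:ℝ) < x := lt_trans one_pos hx
    have hw := w_pos H hx0
    obtain ⟨ha, hb, -⟩ := two_sub_cos (s * x)
    rw [Real.norm_eq_abs, abs_of_nonneg (mul_nonneg ha hw.le)]
    exact mul_le_mul_of_nonneg_right hb hw.le

/-- the normalising constant -/
noncomputable def C (H : ℝ) : ℝ := ∫ x in Ioi (0:ℝ), (2 - 2 * Real.cos x) * w H x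

theorem int_pow_pos {H : ℝ} (s : ℝ) (hs : 0 < s) :
    ∫ x in Ioi (0:ℝ), (2 - 2 * Real.cos (s * x)) * w H x = C H * s ^ (2 * H) := by
  have h := integral_comp_mul_left_Ioi (fun x => (2 - 2 * Real.cos x) * w H x) 0 hs
  rw [mul_zero] at h
  have e : ∫ x in Ioi (0:ℝ), (2 - 2 * Real.cos (s * x)) * w H (s * x) =
      s ^ (-1 - 2 * H) * ∫ x in Ioi (0:ℝ), (2 - 2 * Real.cos (s * x)) * w H x := by
    rw [← integral_const_mul]
    refine setIntegral_congr_fun measurableSet_Ioi fun x hx => ?_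
    simp only [w]
    rw [Real.mul_rpow hs.le (le_of_lt hx)]
    ring
  rw [e] at h
  have hp : (0:ℝ) < s ^ (-1 - 2 * H) := Real.rpow_pos_of_pos hs _
  have e2 : s⁻¹ = s ^ (-1 - 2 * H) * s ^ (2 * H) := by
    rw [← Real.rpow_add hs, show (-1 - 2 * H + 2 * H) = -1 by ring, Real.rpow_neg_one]
  rw [smul_eq_mul, e2] at h
  have h3 : s ^ (-1 - 2 * H) * (∫ x in Ioi (0:ℝ), (2 - 2 * Real.cos (s * x)) * w H x) =
      s ^ (-1 - 2 * H) * (C H * s ^ (2 * H)) := by
    rw [h]; unfold C; ring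
  exact mul_left_cancel₀ hp.ne' h3

theorem int_pow {H : ℝ} (h0 : 0 < H) (s : ℝ) :
    ∫ x in Ioi (0:ℝ), (2 - 2 * Real.cos (s * x)) * w H x = C H * |s| ^ (2 * H) := by
  rcases lt_trichotomy s 0 with h | h | h
  · rw [abs_of_neg h, ← int_pow_pos (-s) (by linarith)]
    congr 1
    ext x
    rw [neg_mul, Real.cos_neg]
  · subst h
    simp [Real.zero_rpow (by linarith : (2 * H) ≠ 0)]
  · rw [abs_of_pos h, int_pow_pos s h]

theorem rep {H : ℝ} (h0 : 0 < H) (h1 : H < 1) (s t : ℝ) :
    IntegrableOn (fun x => (1 - Real.cos (s * x) - Real.cos (t * x) + Real.cos ((s - t) * x)) *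
      w H x) (Ioi 0) ∧
    ∫ x in Ioi (0:ℝ), (1 - Real.cos (s * x) - Real.cos (t * x) + Real.cos ((s - t) * x)) * w H x
      = C H * R H s t := by
  have hs := int_g h0 h1 s
  have ht := int_g h0 h1 t
  have hst := int_g h0 h1 (s - t)
  have e : (fun x => (1 - Real.cos (s * x) - Real.cos (t * x) + Real.cos ((s - t) * x)) * w H x) =
      fun x => (1 / 2 : ℝ) * (((2 - 2 * Real.cos (s * x)) * w H x +
        (2 - 2 * Real.cos (t * x)) * w H x) - (2 - 2 * Real.cos ((s - t) * x)) * w H x) := by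
    ext x; ring
  have h12 : IntegrableOn (fun x => (2 - 2 * Real.cos (s * x)) * w H x +
        (2 - 2 * Real.cos (t * x)) * w H x) (Ioi 0) := hs.add ht
  rw [e]
  refine ⟨(h12.sub hst).const_mul _, ?_⟩
  rw [integral_const_mul, integral_sub h12 hst, integral_add hs ht, int_pow h0, int_pow h0,
    int_pow h0]
  unfold R
  ring

/-- the two real vectors -/
noncomputable def uu (i : ℕ) (x : ℝ) : ℝ := Real.cos (((i : ℝ) + 1) * x) - 1
noncomputable def vv (i : ℕ) (x : ℝ) : ℝ := Real.sin (((i : ℝ) + 1) * x)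

theorem uv (i j : ℕ) (x : ℝ) : uu i x * uu j x + vv i x * vv j x =
    1 - Real.cos (((i : ℝ) + 1) * x) - Real.cos (((j : ℝ) + 1) * x) +
      Real.cos ((((i : ℝ) + 1) - ((j : ℝ) + 1)) * x) := by
  have h : (((i : ℝ) + 1) - ((j : ℝ) + 1)) * x = ((i : ℝ) + 1) * x - ((j : ℝ) + 1) * x := by ring
  rw [h, Real.cos_sub]
  unfold uu vv
  ring

theorem main_rep {H : ℝ} (h0 : 0 < H) (h1 : H < 1) {N : ℕ} (P : Fin N → Fin N → ℝ)
    (b : Fin N → ℝ) :
    IntegrableOn (fun x => (qf P (fun i => b i * uu i x) + qf P (fun i => b i * vv i x)) * w H x)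
      (Ioi 0) ∧
    ∫ x in Ioi (0:ℝ), (qf P (fun i => b i * uu i x) + qf P (fun i => b i * vv i x)) * w H x =
      C H * qf (fun i j => P i j * RM H N i j) b := by
  have e : (fun x => (qf P (fun i => b i * uu i x) + qf P (fun i => b i * vv i x)) * w H x) =
      fun x => ∑ i : Fin N, ∑ j : Fin N, (b i * b j * P i j) *
        ((1 - Real.cos ((((i : ℕ) : ℝ) + 1) * x) - Real.cos ((((j : ℕ) : ℝ) + 1) * x) +
      Real.cos (((((i : ℕ) : ℝ) + 1) - (((j : ℕ) : ℝ) + 1)) * x)) * w H x) := by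
    ext x
    unfold qf
    rw [← Finset.sum_add_distrib, Finset.sum_mul]
    refine Finset.sum_congr rfl fun i _ => ?_
    rw [← Finset.sum_add_distrib, Finset.sum_mul]
    refine Finset.sum_congr rfl fun j _ => ?_
    rw [← uv]
    ring
  have hi : ∀ i j : Fin N, IntegrableOn (fun x => (b i * b j * P i j) *
        ((1 - Real.cos ((((i : ℕ) : ℝ) + 1) * x) - Real.cos ((((j : ℕ) : ℝ) + 1) * x) +
      Real.cos (((((i : ℕ) : ℝ) + 1) - (((j : ℕ) : ℝ) + 1)) * x)) * w H x)) (Ioi 0) :=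
    fun i j => (rep h0 h1 _ _).1.const_mul _
  rw [e]
  refine ⟨integrable_finsetSum _ fun i _ => integrable_finsetSum _ fun j _ => hi i j, ?_⟩
  rw [integral_finsetSum _ fun i _ => integrable_finsetSum _ fun j _ => hi i j]
  unfold qf
  rw [Finset.mul_sum]
  refine Finset.sum_congr rfl fun i _ => ?_
  rw [integral_finsetSum _ fun j _ => hi i j, Finset.mul_sum]
  refine Finset.sum_congr rfl fun j _ => ?_
  rw [integral_const_mul, (rep h0 h1 _ _).2]
  simp only [RM, Matrix.of_apply]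
  ring

/-! ### The lower bounds -/

/-- the second constant -/
noncomputable def K (H : ℝ) : ℝ := ∫ x in (0:ℝ)..Real.pi, x ^ (1 + 2 * H)

theorem K_pos {H : ℝ} (h0 : 0 < H) : 0 < K H := by
  unfold K
  rw [integral_rpow (Or.inl (by linarith)), Real.zero_rpow (by linarith), sub_zero]
  have := Real.rpow_pos_of_pos Real.pi_pos (1 + 2 * H + 1)
  positivity

theorem lower {H : ℝ} (h0 : 0 < H) (Φ f g : ℝ → ℝ) (hΦ : IntegrableOn Φ (Ioi 0))
    (h0Φ : ∀ x, 0 < x → 0 ≤ Φ x) (hf : ∀ x, 0 < x → f x ^ 2 * w H x ≤ Φ x)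
    (hfc : Continuous f) (hgc : Continuous g) (hg : ∀ x, |g x| ≤ 1) :
    (∫ x in (0:ℝ)..Real.pi, f x * g x) ^ 2 / K H ≤ ∫ x in Ioi (0:ℝ), Φ x := by
  set I := ∫ x in (0:ℝ)..Real.pi, f x * g x with hI
  have hK := K_pos h0
  set l := I / K H with hl
  have hi1 : IntervalIntegrable (fun x => 2 * l * (f x * g x)) volume 0 Real.pi :=
    (by fun_prop : Continuous fun x => 2 * l * (f x * g x)).intervalIntegrable _ _
  have hi2 : IntervalIntegrable (fun x : ℝ => l ^ 2 * x ^ (1 + 2 * H)) volume 0 Real.pi :=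
    (intervalIntegral.intervalIntegrable_rpow' (by linarith)).const_mul _
  have h1 : I ^ 2 / K H = ∫ x in (0:ℝ)..Real.pi, (2 * l * (f x * g x) - l ^ 2 * x ^ (1 + 2 * H)) := by
    rw [intervalIntegral.integral_sub hi1 hi2, intervalIntegral.integral_const_mul,
      intervalIntegral.integral_const_mul, ← hI]
    change _ = 2 * l * I - l ^ 2 * K H
    rw [hl]
    field_simp
    ring
  rw [h1, intervalIntegral.integral_of_le Real.pi_pos.le]
  have hsub : Ioc (0:ℝ) Real.pi ⊆ Ioi 0 := fun x hx => hx.1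
  calc ∫ x in Ioc (0:ℝ) Real.pi, (2 * l * (f x * g x) - l ^ 2 * x ^ (1 + 2 * H))
      ≤ ∫ x in Ioc (0:ℝ) Real.pi, Φ x := by
        refine setIntegral_mono_on ?_ (hΦ.mono_set hsub) measurableSet_Ioc fun x hx => ?_
        · have := hi1.sub hi2
          rwa [intervalIntegrable_iff_integrableOn_Ioc_of_le Real.pi_pos.le] at this
        · refine le_trans ?_ (hf x hx.1)
          have hw := w_pos H hx.1
          have hy : 0 < x ^ (1 + 2 * H) := Real.rpow_pos_of_pos hx.1 _
          have e : w H x * x ^ (1 + 2 * H) = 1 := by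
            unfold w
            rw [← Real.rpow_add hx.1, show (-1 - 2 * H + (1 + 2 * H)) = 0 by ring, Real.rpow_zero]
          have hg2 : g x ^ 2 ≤ 1 := by
            rw [← sq_abs]
            exact pow_le_one₀ (abs_nonneg _) (hg x)
          have h3 : 0 ≤ w H x * (f x - l * g x * x ^ (1 + 2 * H)) ^ 2 :=
            mul_nonneg hw.le (sq_nonneg _)
          have h4 : w H x * (f x - l * g x * x ^ (1 + 2 * H)) ^ 2 =
              f x ^ 2 * w H x - 2 * l * (f x * g x) * (w H x * x ^ (1 + 2 * H)) +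
              l ^ 2 * g x ^ 2 * x ^ (1 + 2 * H) * (w H x * x ^ (1 + 2 * H)) := by ring
          rw [e] at h4
          have h5 : l ^ 2 * g x ^ 2 * x ^ (1 + 2 * H) ≤ l ^ 2 * x ^ (1 + 2 * H) := by
            have : l ^ 2 * g x ^ 2 ≤ l ^ 2 := by nlinarith [sq_nonneg l]
            exact mul_le_mul_of_nonneg_right this hy.le
          nlinarith
    _ ≤ ∫ x in Ioi (0:ℝ), Φ x :=
        setIntegral_mono_set hΦ ((ae_restrict_iff' measurableSet_Ioi).2
          (Eventually.of_forall fun x hx => h0Φ x hx)) hsub.eventuallyLE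

theorem int_cos (m : ℤ) (hm : m ≠ 0) : ∫ x in (0:ℝ)..Real.pi, Real.cos ((m : ℝ) * x) = 0 := by
  have hm' : (m : ℝ) ≠ 0 := by exact_mod_cast hm
  rw [intervalIntegral.integral_comp_mul_left (fun y => Real.cos y) hm', integral_cos]
  simp [Real.sin_int_mul_pi]

theorem int_uu (i : ℕ) : ∫ x in (0:ℝ)..Real.pi, uu i x = -Real.pi := by
  unfold uu
  have h1 : ∫ x in (0:ℝ)..Real.pi, Real.cos (((i : ℝ) + 1) * x) = 0 := by
    have := int_cos ((i : ℤ) + 1) (by omega)
    push_cast at this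
    exact this
  rw [intervalIntegral.integral_sub, h1]
  · simp
  · exact (by fun_prop : Continuous fun x => Real.cos (((i : ℝ) + 1) * x)).intervalIntegrable _ _
  · exact continuous_const.intervalIntegrable _ _

theorem int_vv (i k : ℕ) : ∫ x in (0:ℝ)..Real.pi, vv i x * vv k x =
    if i = k then Real.pi / 2 else 0 := by
  have e : ∀ x, vv i x * vv k x = (1 / 2 : ℝ) * (Real.cos ((((i : ℤ) - k : ℤ) : ℝ) * x) -
      Real.cos ((((i : ℤ) + k + 2 : ℤ) : ℝ) * x)) := by
    intro x
    unfold vv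
    have h1 : ((((i : ℤ) - k : ℤ) : ℝ) * x) = (((i : ℝ) + 1) * x) - (((k : ℝ) + 1) * x) := by
      push_cast; ring
    have h2 : ((((i : ℤ) + k + 2 : ℤ) : ℝ) * x) = (((i : ℝ) + 1) * x) + (((k : ℝ) + 1) * x) := by
      push_cast; ring
    rw [h1, h2, Real.cos_sub, Real.cos_add]
    ring
  simp only [e]
  rw [intervalIntegral.integral_const_mul, intervalIntegral.integral_sub,
    int_cos ((i : ℤ) + k + 2) (by omega), sub_zero]
  · split_ifs with h
    · subst h
      simp
      ring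
    · rw [int_cos ((i : ℤ) - k) (by omega), mul_zero]
  · exact (by fun_prop : Continuous fun x : ℝ =>
      Real.cos ((((i : ℤ) - k : ℤ) : ℝ) * x)).intervalIntegrable _ _
  · exact (by fun_prop : Continuous fun x : ℝ =>
      Real.cos ((((i : ℤ) + k + 2 : ℤ) : ℝ) * x)).intervalIntegrable _ _

theorem qf_one {N : ℕ} (c : Fin N → ℝ) : qf (fun _ _ => (1:ℝ)) c = (∑ i, c i) ^ 2 := by
  unfold qf
  rw [sq, Finset.sum_mul_sum]
  simp

theorem continuous_uu (i : ℕ) : Continuous (uu i) := by unfold uu; fun_prop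
theorem continuous_vv (i : ℕ) : Continuous (vv i) := by unfold vv; fun_prop

/-- The two lower bounds for the quadratic form of `R`. -/
theorem lower_qf {H : ℝ} (h0 : 0 < H) (h1 : H < 1) {N : ℕ} (b : Fin N → ℝ) :
    Real.pi ^ 2 / K H * (∑ i, b i) ^ 2 ≤ C H * qf (fun i j => RM H N i j) b ∧
    ∀ k, (Real.pi / 2) ^ 2 / K H * b k ^ 2 ≤ C H * qf (fun i j => RM H N i j) b := by
  have hm := main_rep h0 h1 (fun _ _ => (1:ℝ)) b
  simp only [one_mul, qf_one] at hm
  obtain ⟨hint, heq⟩ := hm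
  have hcu : Continuous fun x => ∑ i, b i * uu i x :=
    continuous_finsetSum _ fun i _ => continuous_const.mul (continuous_uu i)
  have hcv : Continuous fun x => ∑ i, b i * vv i x :=
    continuous_finsetSum _ fun i _ => continuous_const.mul (continuous_vv i)
  have hpos : ∀ x, 0 < x → 0 ≤ ((∑ i, b i * uu i x) ^ 2 + (∑ i, b i * vv i x) ^ 2) * w H x :=
    fun x hx => mul_nonneg (by positivity) (w_pos H hx).le
  constructor
  · have h := lower h0 (fun x => ((∑ i, b i * uu i x) ^ 2 + (∑ i, b i * vv i x) ^ 2) * w H x)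
      (fun x => ∑ i, b i * uu i x) (fun _ => 1) hint hpos
      (fun x hx => mul_le_mul_of_nonneg_right (by nlinarith [sq_nonneg (∑ i, b i * vv i x)])
        (w_pos H hx).le) hcu continuous_const (fun x => by simp)
    rw [heq] at h
    refine le_trans (le_of_eq ?_) h
    have e : ∫ x in (0:ℝ)..Real.pi, (∑ i, b i * uu i x) * 1 = -(Real.pi * ∑ i, b i) := by
      simp only [mul_one]
      rw [intervalIntegral.integral_finsetSum]
      · simp only [intervalIntegral.integral_const_mul, int_uu]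
        rw [Finset.mul_sum, ← Finset.sum_neg_distrib]
        exact Finset.sum_congr rfl fun i _ => by ring
      · exact fun i _ => (continuous_const.mul (continuous_uu i)).intervalIntegrable _ _
    rw [e]
    ring
  · intro k
    have h := lower h0 (fun x => ((∑ i, b i * uu i x) ^ 2 + (∑ i, b i * vv i x) ^ 2) * w H x)
      (fun x => ∑ i, b i * vv i x) (vv k) hint hpos
      (fun x hx => mul_le_mul_of_nonneg_right (by nlinarith [sq_nonneg (∑ i, b i * uu i x)])
        (w_pos H hx).le) hcv (continuous_vv k) (fun x => Real.abs_sin_le_one _)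
    rw [heq] at h
    refine le_trans (le_of_eq ?_) h
    have e : ∫ x in (0:ℝ)..Real.pi, (∑ i, b i * vv i x) * vv k x = Real.pi / 2 * b k := by
      have e1 : ∀ x, (∑ i, b i * vv i x) * vv k x = ∑ i : Fin N, b i * (vv i x * vv k x) := by
        intro x
        rw [Finset.sum_mul]
        exact Finset.sum_congr rfl fun i _ => by ring
      simp only [e1]
      rw [intervalIntegral.integral_finsetSum]
      · simp only [intervalIntegral.integral_const_mul, int_vv, Fin.val_inj]
        simp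
        ring
      · exact fun i _ => (continuous_const.mul
          ((continuous_vv i).mul (continuous_vv k))).intervalIntegrable _ _
    rw [e]
    ring

theorem C_pos {H : ℝ} (h0 : 0 < H) (h1 : H < 1) : 0 < C H := by
  have h := (lower_qf h0 h1 (N := 1) (fun _ => 1)).1
  have hK := K_pos h0
  have e : qf (fun i j => RM H 1 i j) (fun _ => (1:ℝ)) = 1 := by
    simp [qf, RM, R, Real.zero_rpow (by linarith : (2 * H) ≠ 0)]
  rw [e, mul_one] at h
  refine lt_of_lt_of_le ?_ h
  have := Real.pi_pos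
  simp
  positivity

/-- the lower bound for `κ` -/
noncomputable def k0 (H : ℝ) : ℝ := Real.pi ^ 2 / K H / C H

theorem k0_pos {H : ℝ} (h0 : 0 < H) (h1 : H < 1) : 0 < k0 H := by
  have := K_pos h0
  have := C_pos h0 h1
  have := Real.pi_pos
  unfold k0
  positivity

theorem qf_ge {H : ℝ} (h0 : 0 < H) (h1 : H < 1) {N : ℕ} (b : Fin N → ℝ) :
    k0 H * (∑ i, b i) ^ 2 ≤ qf (fun i j => RM H N i j) b := by
  have h := (lower_qf h0 h1 b).1
  have hC := C_pos h0 h1
  unfold k0
  rw [div_mul_eq_mul_div, div_le_iff₀ hC]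
  linarith

theorem qf_pos {H : ℝ} (h0 : 0 < H) (h1 : H < 1) {N : ℕ} (b : Fin N → ℝ) :
    0 ≤ qf (fun i j => RM H N i j) b ∧ (b ≠ 0 → 0 < qf (fun i j => RM H N i j) b) := by
  have hC := C_pos h0 h1
  have hK := K_pos h0
  have hpi := Real.pi_pos
  constructor
  · have h := qf_ge h0 h1 b
    have := k0_pos h0 h1
    refine le_trans ?_ h
    positivity
  · intro hb
    obtain ⟨k, hk⟩ := Function.ne_iff.1 hb
    have h := (lower_qf h0 h1 b).2 k
    have hk' : b k ≠ 0 := hk
    have h2 : 0 < (Real.pi / 2) ^ 2 / K H * b k ^ 2 := by positivity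
    have h3 : 0 < C H * qf (fun i j => RM H N i j) b := lt_of_lt_of_le h2 h
    exact pos_of_mul_pos_right h3 hC.le

/-- The Schur product argument. -/
theorem schur {H : ℝ} (h0 : 0 < H) (h1 : H < 1) {N : ℕ} (b : Fin N → ℝ) :
    k0 H * qf (fun i j => RM H N i j) b ≤ qf (fun i j => RM H N i j * RM H N i j) b := by
  have hC := C_pos h0 h1
  have h := main_rep h0 h1 (fun i j => RM H N i j - k0 H) b
  have hq : ∀ c : Fin N → ℝ, 0 ≤ qf (fun i j => RM H N i j - k0 H) c := by
    intro c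
    have h2 := qf_ge h0 h1 c
    have e : qf (fun i j => RM H N i j - k0 H) c =
        qf (fun i j => RM H N i j) c - k0 H * (∑ i, c i) ^ 2 := by
      rw [← qf_one]
      unfold qf
      rw [Finset.mul_sum, ← Finset.sum_sub_distrib]
      refine Finset.sum_congr rfl fun i _ => ?_
      rw [Finset.mul_sum, ← Finset.sum_sub_distrib]
      exact Finset.sum_congr rfl fun j _ => by ring
    rw [e]
    linarith
  have h3 : 0 ≤ C H * qf (fun i j => (RM H N i j - k0 H) * RM H N i j) b := by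
    rw [← h.2]
    refine setIntegral_nonneg measurableSet_Ioi fun x hx => ?_
    exact mul_nonneg (add_nonneg (hq _) (hq _)) (w_pos H hx).le
  have h4 : 0 ≤ qf (fun i j => (RM H N i j - k0 H) * RM H N i j) b :=
    nonneg_of_mul_nonneg_right h3 hC
  have e : qf (fun i j => (RM H N i j - k0 H) * RM H N i j) b =
      qf (fun i j => RM H N i j * RM H N i j) b - k0 H * qf (fun i j => RM H N i j) b := by
    unfold qf
    rw [Finset.mul_sum, ← Finset.sum_sub_distrib]
    refine Finset.sum_congr rfl fun i _ => ?_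
    rw [Finset.mul_sum, ← Finset.sum_sub_distrib]
    exact Finset.sum_congr rfl fun j _ => by ring
  rw [e] at h4
  linarith

/-! ### Complex vectors and the limit -/

theorem form_pos {H : ℝ} (h0 : 0 < H) (h1 : H < 1) {N : ℕ} (a : Fin N → ℂ) (ha : a ≠ 0) :
    0 < form (RM H N) a := by
  rw [form_eq]
  obtain ⟨hr, hr'⟩ := qf_pos h0 h1 (fun i => (a i).re)
  obtain ⟨hi, hi'⟩ := qf_pos h0 h1 (fun i => (a i).im)
  by_cases h : (fun i => (a i).re) = 0
  · have h2 : (fun i => (a i).im) ≠ 0 := by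
      intro h2
      apply ha
      ext i
      exact Complex.ext (congrFun h i) (congrFun h2 i)
    exact add_pos_of_nonneg_of_pos hr (hi' h2)
  · exact add_pos_of_pos_of_nonneg (hr' h) hi

theorem form_ge {H : ℝ} (h0 : 0 < H) (h1 : H < 1) {N : ℕ} (a : Fin N → ℂ) :
    k0 H * form (RM H N) a ≤ form (Matrix.hadamard (RM H N) (RM H N)) a := by
  rw [form_eq, form_eq, mul_add]
  exact add_le_add (schur h0 h1 _) (schur h0 h1 _)

theorem form_snoc {H : ℝ} {N : ℕ} (a : Fin N → ℂ) :
    form (RM H (N + 1)) (Fin.snoc (α := fun _ => ℂ) a 0) = form (RM H N) a ∧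
    form (Matrix.hadamard (RM H (N + 1)) (RM H (N + 1))) (Fin.snoc (α := fun _ => ℂ) a 0) =
      form (Matrix.hadamard (RM H N) (RM H N)) a := by
  unfold form
  constructor
  · simp [Fin.sum_univ_castSucc, RM]
  · simp [Fin.sum_univ_castSucc, RM]

/-- **Theorem.** For every `γ ∈ (0,2)` the limit `κ(γ) = lim κ(γ,N)` exists and is positive. -/
theorem result (γ : ℝ) (h0 : 0 < γ) (h2 : γ < 2) :
    ∃ κ : ℝ, 0 < κ ∧ Tendsto (kappa γ) atTop (𝓝 κ) := by
  have hH0 : 0 < γ / 2 := by linarith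
  have hH1 : γ / 2 < 1 := by linarith
  have hlow : ∀ N : ℕ, ∀ r ∈ {r : ℝ | ∃ a : Fin N → ℂ, a ≠ 0 ∧
      r = form (Matrix.hadamard (RM (γ / 2) N) (RM (γ / 2) N)) a / form (RM (γ / 2) N) a},
      k0 (γ / 2) ≤ r := by
    rintro N r ⟨a, ha, rfl⟩
    rw [le_div_iff₀ (form_pos hH0 hH1 a ha)]
    exact form_ge hH0 hH1 a
  have hne : ∀ N : ℕ, {r : ℝ | ∃ a : Fin (N + 1) → ℂ, a ≠ 0 ∧
      r = form (Matrix.hadamard (RM (γ / 2) (N + 1)) (RM (γ / 2) (N + 1))) a /
        form (RM (γ / 2) (N + 1)) a}.Nonempty := by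
    intro N
    exact ⟨_, fun _ => 1, fun h => one_ne_zero (congrFun h 0), rfl⟩
  have hk : ∀ N : ℕ, k0 (γ / 2) ≤ kappa γ (N + 1) := fun N => le_csInf (hne N) (hlow _)
  have hanti : Antitone fun N : ℕ => kappa γ (N + 1) := by
    refine antitone_nat_of_succ_le fun N => ?_
    refine csInf_le_csInf ⟨k0 (γ / 2), hlow _⟩ (hne N) ?_
    rintro r ⟨a, ha, rfl⟩
    refine ⟨Fin.snoc (α := fun _ => ℂ) a 0, ?_, ?_⟩
    · intro h
      apply ha
      ext i
      have := congrFun h (Fin.castSucc i)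
      simpa using this
    · rw [(form_snoc a).1, (form_snoc a).2]
  have hb : BddBelow (range fun N : ℕ => kappa γ (N + 1)) :=
    ⟨k0 (γ / 2), by rintro _ ⟨N, rfl⟩; exact hk N⟩
  refine ⟨⨅ N : ℕ, kappa γ (N + 1), lt_of_lt_of_le (k0_pos hH0 hH1) (le_ciInf hk), ?_⟩
  exact (tendsto_add_atTop_iff_nat 1).1 (tendsto_atTop_ciInf hanti hb)

end Pool.Agent.Results.MP_271f9a_pr.KappaPositive
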